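import Mathlib
import Pool.Agent.X296.FiniteOrbit

/-!
# A geometrically irreducible curve with two limit fixed points

Over every finite field `F` all geometric points of the diagonal of the affine plane are eventually
mapped to one of the two fixed points `(0, 0)` and `(0, 1)` of
`T(x, y) = (x y (y - 1), y + x y (y - 1))`, and both fixed points occur.

Idea: `T` contracts the lines `y = 0` and `y = 1` to the fixed points `(0, 0)` and `(0, 1)`, it is
injective outside of these lines, and no point of the diagonal is the image of a point outside of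
these lines (the difference of the two coordinates of `T(x, y)` is `y`). All orbits are finite, so an
orbit starting on the diagonal cannot avoid these lines: otherwise it would be purely periodic.
-/

set_option autoImplicit false

namespace Pool.Agent.Results.MP_2dcdad_ag.TwoLimits

open MvPolynomial Pool.Agent.X296

universe u

variable {F : Type u} [Field F] {n : ℕ}

/-- `Y` is the set of geometric points of a closed subvariety of affine space defined over `F`. -/
def IsSubvariety (Y : Set (Fin n → AlgebraicClosure F)) : Prop :=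
  ∃ S : Set (MvPolynomial (Fin n) F), Y = {x | ∀ f ∈ S, aeval x f = 0}

/-- `Y` is geometrically irreducible: it is nonempty, and if the product of two polynomials over the
algebraic closure vanishes on `Y` then one of them does (the ideal of `Y` is prime). -/
def GeometricallyIrreducible (Y : Set (Fin n → AlgebraicClosure F)) : Prop :=
  Y.Nonempty ∧ ∀ p q : MvPolynomial (Fin n) (AlgebraicClosure F),
    (∀ x ∈ Y, eval x p * eval x q = 0) → (∀ x ∈ Y, eval x p = 0) ∨ (∀ x ∈ Y, eval x q = 0)

/-- The map `T(x, y) = (x y (y - 1), y + x y (y - 1))`. -/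
noncomputable def T (F : Type u) [Field F] : Fin 2 → MvPolynomial (Fin 2) F :=
  ![X 0 * X 1 * (X 1 - 1), X 1 + X 0 * X 1 * (X 1 - 1)]

/-- The diagonal. -/
def Y (F : Type u) [Field F] : Set (Fin 2 → AlgebraicClosure F) := {v | v 0 = v 1}

lemma act_T_zero (v : Fin 2 → AlgebraicClosure F) :
    act (T F) v 0 = v 0 * v 1 * (v 1 - 1) := by
  simp [act, T]

lemma act_T_one (v : Fin 2 → AlgebraicClosure F) :
    act (T F) v 1 = v 1 + v 0 * v 1 * (v 1 - 1) := by
  simp [act, T]

lemma act_line {v : Fin 2 → AlgebraicClosure F} (hv : v 1 = 0 ∨ v 1 = 1) :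
    act (T F) v = ![0, v 1] := by
  funext i
  fin_cases i
  · refine (act_T_zero _).trans ?_
    rcases hv with hv | hv <;> simp [hv]
  · refine (act_T_one _).trans ?_
    rcases hv with hv | hv <;> simp [hv]

lemma fix_zero : act (T F) ![0, 0] = ![0, 0] := act_line (v := ![0, 0]) (Or.inl rfl)

lemma fix_one : act (T F) ![0, 1] = ![0, 1] := act_line (v := ![0, 1]) (Or.inr rfl)

lemma isSubvariety : IsSubvariety (Y F) := by
  refine ⟨{X 0 - X 1}, ?_⟩
  ext v
  simp [Y, sub_eq_zero]

lemma geometricallyIrreducible : GeometricallyIrreducible (Y F) := by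
  refine ⟨⟨0, rfl⟩, ?_⟩
  intro p q h
  have hinf : Infinite (AlgebraicClosure F) := inferInstance
  let φ : MvPolynomial (Fin 2) (AlgebraicClosure F) →ₐ[AlgebraicClosure F]
      Polynomial (AlgebraicClosure F) := aeval ![Polynomial.X, Polynomial.X]
  have hφ : ∀ (s : AlgebraicClosure F) (f), (φ f).eval s = eval ![s, s] f := by
    intro s f
    have h1 : (φ f).eval s = ((Polynomial.aeval s).comp φ) f := by
      rw [AlgHom.comp_apply, Polynomial.coe_aeval_eq_eval]
    rw [h1]
    have h2 : (Polynomial.aeval s).comp φ = aeval ![s, s] := by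
      apply MvPolynomial.algHom_ext
      intro i
      fin_cases i <;> simp [φ]
    rw [h2, ← MvPolynomial.coe_aeval_eq_eval]
    rfl
  have hzero : φ p * φ q = 0 := by
    apply Polynomial.funext
    intro s
    rw [Polynomial.eval_mul, hφ, hφ, Polynomial.eval_zero]
    exact h _ rfl
  have key : ∀ f, φ f = 0 → ∀ x ∈ Y F, eval x f = 0 := by
    intro f hf x hx
    have hx' : x = ![x 0, x 0] := by
      funext i
      fin_cases i
      · rfl
      · exact (show x 0 = x 1 from hx).symm
    rw [hx', ← hφ, hf, Polynomial.eval_zero]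
  rcases mul_eq_zero.1 hzero with h1 | h1
  · exact Or.inl (key p h1)
  · exact Or.inr (key q h1)

lemma converges [Finite F] {Q : Fin 2 → AlgebraicClosure F} (hQ : Q ∈ Y F) :
    ∃ k, (act (T F))^[k] Q = ![0, 0] ∨ (act (T F))^[k] Q = ![0, 1] := by
  obtain ⟨k, hk⟩ : ∃ k, (act (T F))^[k] Q ∈
      {v : Fin 2 → AlgebraicClosure F | v 1 = 0 ∨ v 1 = 1} := by
    apply exists_mem_of_finite ?_ (orbit_finite (T F) Q) ?_
    · intro v hv w hw h
      have h0 := congrFun h 0
      have h1 := congrFun h 1
      rw [act_T_zero, act_T_zero] at h0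
      rw [act_T_one, act_T_one] at h1
      have e1 : v 1 = w 1 := by linear_combination h1 - h0
      have hw' : ¬ (w 1 = 0 ∨ w 1 = 1) := hw
      push Not at hw'
      have e0 : v 0 = w 0 := by
        rw [e1, mul_assoc, mul_assoc] at h0
        exact mul_right_cancel₀ (mul_ne_zero hw'.1 (sub_ne_zero.2 hw'.2)) h0
      funext i
      fin_cases i
      · exact e0
      · exact e1
    · intro v hv h
      apply hv
      have h0 := congrFun h 0
      have h1 := congrFun h 1
      rw [act_T_zero] at h0
      rw [act_T_one] at h1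
      have hQ' : Q 0 = Q 1 := hQ
      left
      linear_combination h1 - h0 - hQ'
  refine ⟨k + 1, ?_⟩
  rw [Function.iterate_succ_apply', act_line hk]
  rcases hk with hk | hk
  · left
    rw [hk]
  · right
    rw [hk]

/-- Over every finite field `F`, the diagonal `Y` of the affine plane is a geometrically irreducible
closed subvariety such that every geometric point of `Y` is sent by an iterate of
`T(x, y) = (x y (y - 1), y + x y (y - 1))` to a fixed point of `T`, and two distinct fixed points
occur as such limits. -/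
theorem result : ∀ (F : Type u) [Field F] [Finite F],
    ∃ (T : Fin 2 → MvPolynomial (Fin 2) F) (Y : Set (Fin 2 → AlgebraicClosure F)),
      T = ![X 0 * X 1 * (X 1 - 1), X 1 + X 0 * X 1 * (X 1 - 1)] ∧ Y = {v | v 0 = v 1} ∧
      IsSubvariety Y ∧ GeometricallyIrreducible Y ∧
      (∀ Q ∈ Y, ∃ k, 1 ≤ k ∧ act T ((act T)^[k] Q) = (act T)^[k] Q) ∧
      ∃ P₁ P₂, P₁ ≠ P₂ ∧ act T P₁ = P₁ ∧ act T P₂ = P₂ ∧
        (∃ Q ∈ Y, ∃ k, 1 ≤ k ∧ (act T)^[k] Q = P₁) ∧ (∃ Q ∈ Y, ∃ k, 1 ≤ k ∧ (act T)^[k] Q = P₂) := by
  intro F _ _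
  refine ⟨T F, Y F, rfl, rfl, isSubvariety, geometricallyIrreducible, ?_, ![0, 0], ![0, 1], ?_,
    fix_zero, fix_one, ⟨![0, 0], rfl, 1, le_rfl, fix_zero⟩, ⟨![1, 1], rfl, 1, le_rfl, ?_⟩⟩
  · intro Q hQ
    obtain ⟨k, hk⟩ := converges hQ
    refine ⟨k + 1, Nat.succ_pos k, ?_⟩
    rw [Function.iterate_succ_apply']
    rcases hk with hk | hk
    · rw [hk, fix_zero, fix_zero]
    · rw [hk, fix_one, fix_one]
  · intro h
    exact zero_ne_one (congrFun h 1)
  · exact act_line (v := ![1, 1]) (Or.inr rfl)

end Pool.Agent.Results.MP_2dcdad_ag.TwoLimits
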